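import Pool.Agent.W845.DH.Stm

/-! Project DH: disjoint random arcs. -/

set_option autoImplicit false
open scoped Classical
open Filter Topology
open scoped BigOperators

namespace Pool.Agent.W143.DH

open Pool.Agent.W845.DH

noncomputable section

theorem EW_add {α : Type} (E : Finset α) (p : ℝ) (f g : Finset α → ℝ) :
    EW E p (fun R => f R + g R) = EW E p f + EW E p g := by
  unfold EW
  rw [← Finset.sum_add_distrib]
  exact Finset.sum_congr rfl fun R _ => by ring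

theorem EW_smul {α : Type} (E : Finset α) (p c : ℝ) (f : Finset α → ℝ) :
    EW E p (fun R => c * f R) = c * EW E p f := by
  unfold EW
  rw [Finset.mul_sum]
  exact Finset.sum_congr rfl fun R _ => by ring

theorem EW_sum {α β : Type} (E : Finset α) (p : ℝ) (s : Finset β) (f : β → Finset α → ℝ) :
    EW E p (fun R => ∑ c ∈ s, f c R) = ∑ c ∈ s, EW E p (f c) := by
  unfold EW
  rw [Finset.sum_comm]
  exact Finset.sum_congr rfl fun R _ => by rw [Finset.mul_sum]

/-- many elements without conflict -/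
theorem gen (hE : S_EW) (hC : S_CHEB) {α : Type} (E B : Finset α) (Cf : Finset (α × α))
    (p n : ℝ) (hB : B ⊆ E) (hp : 0 < p) (hp1 : p ≤ 1) (hBn : B.Nonempty)
    (hCf : ∀ c ∈ Cf, c.1 ∈ B ∧ c.2 ∈ B ∧ c.1 ≠ c.2) (hcard : (Cf.card : ℝ) ≤ n * B.card)
    (f : Finset α → ℝ) (hf1 : ∀ R ⊆ E, f R ≤ 1)
    (hf : ∀ R ⊆ E, (∃ M ⊆ R, M ⊆ B ∧ (∀ e ∈ M, ∀ e' ∈ M, (e, e') ∉ Cf) ∧
      p * B.card / 4 < (M.card : ℝ)) → f R ≤ 0) :
    EW E p f ≤ 4 / (p * B.card) + 4 * p * n := by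
  obtain ⟨μ, hμ⟩ : ∃ μ, μ = p * (B.card : ℝ) := ⟨_, rfl⟩
  have hBc : (0 : ℝ) < B.card := by exact_mod_cast hBn.card_pos
  have hμp : 0 < μ := by rw [hμ]; positivity
  let W : Finset α → ℝ := fun R => ∑ c ∈ Cf, (if c.1 ∈ R ∧ c.2 ∈ R then (1 : ℝ) else 0)
  have hW0 : ∀ R, 0 ≤ W R := fun R => Finset.sum_nonneg fun c _ => by split_ifs <;> norm_num
  have hle : ∀ R ⊆ E, f R ≤ (if 2 * ((R ∩ B).card : ℝ) ≤ p * B.card then (1 : ℝ) else 0) +
      4 / μ * W R := by
    intro R hR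
    by_cases h1 : 2 * ((R ∩ B).card : ℝ) ≤ p * B.card
    · rw [if_pos h1]
      have := hf1 R hR
      have h2 : 0 ≤ 4 / μ * W R := mul_nonneg (by positivity) (hW0 R)
      linarith
    · rw [if_neg h1, zero_add]
      by_cases h2 : μ / 4 ≤ W R
      · refine (hf1 R hR).trans ?_
        rw [div_mul_eq_mul_div, le_div_iff₀ hμp]
        linarith
      · refine (hf R hR ?_).trans (mul_nonneg (by positivity) (hW0 R))
        push Not at h1 h2
        refine ⟨(R ∩ B).filter (fun e => ∀ e' ∈ R ∩ B, (e, e') ∉ Cf), ?_, ?_, ?_, ?_⟩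
        · exact (Finset.filter_subset _ _).trans Finset.inter_subset_left
        · exact (Finset.filter_subset _ _).trans Finset.inter_subset_right
        · intro e he e' he'
          rw [Finset.mem_filter] at he he'
          exact he.2 e' he'.1
        · have hWc : W R = ((Cf.filter (fun c => c.1 ∈ R ∧ c.2 ∈ R)).card : ℝ) := by
            show ∑ c ∈ Cf, (if c.1 ∈ R ∧ c.2 ∈ R then (1 : ℝ) else 0) = _
            rw [Finset.sum_ite, Finset.sum_const_zero, add_zero, Finset.sum_const, nsmul_eq_mul,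
              mul_one]
          have hbad : ((R ∩ B).filter (fun e => ¬ ∀ e' ∈ R ∩ B, (e, e') ∉ Cf)).card ≤
              (Cf.filter (fun c => c.1 ∈ R ∧ c.2 ∈ R)).card := by
            refine (Finset.card_le_card ?_).trans
              (Finset.card_image_le (s := Cf.filter (fun c => c.1 ∈ R ∧ c.2 ∈ R)) (f := Prod.fst))
            intro e he
            rw [Finset.mem_filter] at he
            obtain ⟨he1, he2⟩ := he
            push Not at he2
            obtain ⟨e', he', hc⟩ := he2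
            rw [Finset.mem_image]
            refine ⟨(e, e'), ?_, rfl⟩
            rw [Finset.mem_filter]
            exact ⟨hc, (Finset.mem_inter.1 he1).1, (Finset.mem_inter.1 he').1⟩
          have hsum : ((R ∩ B).filter (fun e => ∀ e' ∈ R ∩ B, (e, e') ∉ Cf)).card +
              ((R ∩ B).filter (fun e => ¬ ∀ e' ∈ R ∩ B, (e, e') ∉ Cf)).card = (R ∩ B).card :=
            Finset.card_filter_add_card_filter_not _
          have hbad' : (((R ∩ B).filter (fun e => ¬ ∀ e' ∈ R ∩ B, (e, e') ∉ Cf)).card : ℝ) ≤ W R := by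
            rw [hWc]; exact_mod_cast hbad
          have hsum' : (((R ∩ B).filter (fun e => ∀ e' ∈ R ∩ B, (e, e') ∉ Cf)).card : ℝ) +
              (((R ∩ B).filter (fun e => ¬ ∀ e' ∈ R ∩ B, (e, e') ∉ Cf)).card : ℝ) =
              ((R ∩ B).card : ℝ) := by exact_mod_cast hsum
          rw [← hμ] at h1 ⊢
          linarith
  obtain ⟨_, hE2, _, _, hE5⟩ := hE
  have h1 := hE2 α E p f _ hp.le hp1 hle
  rw [EW_add, EW_smul] at h1
  have h2 : EW E p W = ∑ c ∈ Cf, EW E p (fun R => if c.1 ∈ R ∧ c.2 ∈ R then (1 : ℝ) else 0) :=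
    EW_sum E p Cf _
  have h3 : EW E p W = Cf.card * p ^ 2 := by
    rw [h2, Finset.sum_congr rfl (fun c hc => hE5 α E p c.1 c.2 (hB (hCf c hc).1)
      (hB (hCf c hc).2.1) (hCf c hc).2.2), Finset.sum_const, nsmul_eq_mul]
  rw [h3] at h1
  have h4 := hC α E B p hB hp hp1 hBn
  have h5 : 4 / μ * (Cf.card * p ^ 2) ≤ 4 * p * n := by
    rw [div_mul_eq_mul_div, div_le_iff₀ hμp, hμ]
    have : (Cf.card : ℝ) * (4 * p ^ 2) ≤ n * B.card * (4 * p ^ 2) :=
      mul_le_mul_of_nonneg_right hcard (by positivity)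
    nlinarith [this]
  linarith

/-- the conflicts between the pairs of a product -/
def cf {n : ℕ} (X Y : Finset (Fin n)) : Finset ((Fin n × Fin n) × (Fin n × Fin n)) :=
  ((X ×ˢ Y) ×ˢ (X ×ˢ Y)).filter (fun c => c.1 ≠ c.2 ∧ (c.1.1 = c.2.1 ∨ c.1.2 = c.2.2))

theorem cf_card {n : ℕ} (X Y : Finset (Fin n)) (hXY : Disjoint X Y) :
    (cf X Y).card ≤ n * (X ×ˢ Y).card := by
  have h1 : cf X Y ⊆ ((X ×ˢ Y) ×ˢ Y).image (fun t => (t.1, (t.1.1, t.2))) ∪
      ((X ×ˢ Y) ×ˢ X).image (fun t => (t.1, (t.2, t.1.2))) := by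
    rintro ⟨⟨x, y⟩, ⟨x', y'⟩⟩ hc
    unfold cf at hc
    rw [Finset.mem_filter, Finset.mem_product, Finset.mem_product, Finset.mem_product] at hc
    obtain ⟨⟨⟨hx, hy⟩, hx', hy'⟩, hne, h⟩ := hc
    simp only at hx hy hx' hy' h
    rw [Finset.mem_union, Finset.mem_image, Finset.mem_image]
    rcases h with h | h
    · left
      refine ⟨((x, y), y'), ?_, ?_⟩
      · simp [hx, hy, hy']
      · simp [h]
    · right
      refine ⟨((x, y), x'), ?_, ?_⟩
      · simp [hx, hy, hx']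
      · simp [h]
  have h2 : X.card + Y.card ≤ n := by
    rw [← Finset.card_union_of_disjoint hXY]
    exact (Finset.card_le_univ _).trans (by simp)
  calc (cf X Y).card ≤ _ := Finset.card_le_card h1
    _ ≤ _ := Finset.card_union_le _ _
    _ ≤ ((X ×ˢ Y) ×ˢ Y).card + ((X ×ˢ Y) ×ˢ X).card :=
        Nat.add_le_add Finset.card_image_le Finset.card_image_le
    _ = (X.card + Y.card) * (X ×ˢ Y).card := by
        rw [Finset.card_product, Finset.card_product (X ×ˢ Y) X]; ring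
    _ ≤ n * (X ×ˢ Y).card := Nat.mul_le_mul_right _ h2

theorem rm : S_EW → S_CHEB → S_RM := by
  intro hE hC δ hδ
  obtain ⟨K, hK⟩ : ∃ K : ℝ, K = 2560 + 2048 / δ := ⟨_, rfl⟩
  have hK0 : 0 < K := by rw [hK]; positivity
  have hK1 : 2560 ≤ K := by rw [hK]; have : 0 < 2048 / δ := by positivity
                            linarith
  have hK2 : 2048 / δ ≤ K := by rw [hK]; linarith
  refine ⟨K, δ / (16 * K), 1, hK0, by positivity, ?_⟩
  intro n η p X Y hn hη hηn hp0 hp1 hpK hXY hX hY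
  have hn0 : (0 : ℝ) < n := by exact_mod_cast hn
  have hη0 : 0 < η := by linarith
  obtain ⟨q, hq⟩ : ∃ q : ℝ, q = K * η / (n : ℝ) ^ 2 := ⟨_, rfl⟩
  have hq0 : 0 < q := by rw [hq]; positivity
  rw [← hq] at hpK
  have hq1 : q ≤ 1 := hpK.trans hp1
  -- monotonicity in p
  have hmono := hE.2.2.1 (Fin n × Fin n) (Finset.univ : Finset (Fin n)).offDiag q p
    (fun R => if (∃ M ⊆ R, VDs M ∧ (∀ e ∈ M, e.1 ∈ X ∧ e.2 ∈ Y) ∧ 10 * η ≤ (M.card : ℝ)) then 0
      else 1) hq0.le hpK hp1 (by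
      intro R R' hRR _
      show (if (∃ M ⊆ R', VDs M ∧ (∀ e ∈ M, e.1 ∈ X ∧ e.2 ∈ Y) ∧ 10 * η ≤ (M.card : ℝ)) then (0 : ℝ)
        else 1) ≤ (if (∃ M ⊆ R, VDs M ∧ (∀ e ∈ M, e.1 ∈ X ∧ e.2 ∈ Y) ∧ 10 * η ≤ (M.card : ℝ))
        then (0 : ℝ) else 1)
      by_cases h1 : ∃ M ⊆ R, VDs M ∧ (∀ e ∈ M, e.1 ∈ X ∧ e.2 ∈ Y) ∧ 10 * η ≤ (M.card : ℝ)
      · have h2 : ∃ M ⊆ R', VDs M ∧ (∀ e ∈ M, e.1 ∈ X ∧ e.2 ∈ Y) ∧ 10 * η ≤ (M.card : ℝ) := by
          obtain ⟨M, hM, h⟩ := h1
          exact ⟨M, hM.trans hRR, h⟩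
        rw [if_pos h1, if_pos h2]
      · rw [if_neg h1]
        split_ifs <;> norm_num)
  refine hmono.trans ?_
  -- the size of B
  have hBcard : ((X ×ˢ Y).card : ℝ) = (X.card : ℝ) * Y.card := by
    rw [Finset.card_product]; push_cast; ring
  have hB64 : (n : ℝ) ^ 2 / 64 ≤ ((X ×ˢ Y).card : ℝ) := by
    rw [hBcard]
    calc (n : ℝ) ^ 2 / 64 = (n : ℝ) / 8 * ((n : ℝ) / 8) := by ring
      _ ≤ (X.card : ℝ) * Y.card := mul_le_mul hX hY (by positivity) (by positivity)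
  have hBpos : (0 : ℝ) < ((X ×ˢ Y).card : ℝ) := lt_of_lt_of_le (by positivity) hB64
  have hBne : (X ×ˢ Y).Nonempty := by
    rw [← Finset.card_pos]; exact_mod_cast hBpos
  have hdisj : ∀ a ∈ X, ∀ b ∈ Y, a ≠ b := fun a ha b hb => Finset.disjoint_iff_ne.1 hXY a ha b hb
  have hμ : K * η / 64 ≤ q * ((X ×ˢ Y).card : ℝ) := by
    calc K * η / 64 = q * ((n : ℝ) ^ 2 / 64) := by rw [hq]; field_simp
      _ ≤ _ := mul_le_mul_of_nonneg_left hB64 hq0.le
  have hmain := gen hE hC (Finset.univ : Finset (Fin n)).offDiag (X ×ˢ Y) (cf X Y) q n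
    (by
      intro e he
      rw [Finset.mem_product] at he
      rw [Finset.mem_offDiag]
      exact ⟨Finset.mem_univ _, Finset.mem_univ _, hdisj _ he.1 _ he.2⟩)
    hq0 hq1 hBne
    (by
      intro c hc
      unfold cf at hc
      rw [Finset.mem_filter, Finset.mem_product] at hc
      exact ⟨hc.1.1, hc.1.2, hc.2.1⟩)
    (by exact_mod_cast cf_card X Y hXY)
    (fun R => if (∃ M ⊆ R, VDs M ∧ (∀ e ∈ M, e.1 ∈ X ∧ e.2 ∈ Y) ∧ 10 * η ≤ (M.card : ℝ)) then 0
      else 1)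
    (by
      intro R _
      show (if (∃ M ⊆ R, VDs M ∧ (∀ e ∈ M, e.1 ∈ X ∧ e.2 ∈ Y) ∧ 10 * η ≤ (M.card : ℝ)) then (0 : ℝ)
        else 1) ≤ 1
      split_ifs <;> norm_num)
    (by
      rintro R - ⟨M, hMR, hMB, hMc, hMcard⟩
      show (if (∃ M ⊆ R, VDs M ∧ (∀ e ∈ M, e.1 ∈ X ∧ e.2 ∈ Y) ∧ 10 * η ≤ (M.card : ℝ)) then (0 : ℝ)
        else 1) ≤ 0
      have hmem : ∀ e ∈ M, e.1 ∈ X ∧ e.2 ∈ Y := fun e he => Finset.mem_product.1 (hMB he)
      rw [if_pos]
      refine ⟨M, hMR, ⟨fun e he => hdisj _ (hmem e he).1 _ (hmem e he).2, ?_⟩, hmem, ?_⟩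
      · intro e he f hf hef
        have hcf := hMc e he f hf
        have h5 : e.1 ≠ f.1 ∧ e.2 ≠ f.2 := by
          constructor
          · intro h
            apply hcf
            unfold cf
            rw [Finset.mem_filter, Finset.mem_product]
            exact ⟨⟨hMB he, hMB hf⟩, hef, Or.inl h⟩
          · intro h
            apply hcf
            unfold cf
            rw [Finset.mem_filter, Finset.mem_product]
            exact ⟨⟨hMB he, hMB hf⟩, hef, Or.inr h⟩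
        exact ⟨h5.1, hdisj _ (hmem e he).1 _ (hmem f hf).2,
          (hdisj _ (hmem f hf).1 _ (hmem e he).2).symm, h5.2⟩
      · have h6 : 10 * η ≤ K * η / 256 := by
          rw [le_div_iff₀ (by norm_num)]
          nlinarith
        linarith)
  refine hmain.trans ?_
  have h7 : 4 / (q * ((X ×ˢ Y).card : ℝ)) ≤ δ / 4 := by
    have h8 : 0 < K * η / 64 := by positivity
    calc 4 / (q * ((X ×ˢ Y).card : ℝ)) ≤ 4 / (K * η / 64) :=
          div_le_div_of_nonneg_left (by norm_num) h8 hμ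
      _ ≤ 4 / (K / 128) := by
          refine div_le_div_of_nonneg_left (by norm_num) (by positivity) ?_
          nlinarith
      _ ≤ δ / 4 := by
          rw [div_le_iff₀ (by positivity)]
          rw [div_le_iff₀ hδ] at hK2
          nlinarith
  have h9 : 4 * q * n ≤ δ / 4 := by
    have h10 : 4 * q * n = 4 * K * (η / n) := by rw [hq]; field_simp
    have h11 : η / n ≤ δ / (16 * K) := by
      rw [div_le_iff₀ hn0]; exact hηn
    rw [h10]
    calc 4 * K * (η / n) ≤ 4 * K * (δ / (16 * K)) := mul_le_mul_of_nonneg_left h11 (by positivity)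
      _ = δ / 4 := by field_simp; norm_num
  linarith

end

end Pool.Agent.W143.DH
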